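import Pool.Agent.Y229.MS.Stm

/-!
# Project MS: the classes of jets are invariant under polynomial isomorphisms
-/

set_option autoImplicit false

namespace Pool.Agent.Z864.MS

open MvPolynomial Pool.Agent.W428.MOT Pool.Agent.W375.MT Pool.Agent.Y229.MS
open Pool.Agent.W375.MG (JetG Good)

variable {K : Type} [Field K] {a b N : ℕ}

/-- composition of jets with a polynomial map -/
noncomputable def Tm (φ : MvPolynomial (Fin a) K →ₐ[K] MvPolynomial (Fin b) K) (N : ℕ)
    (z : Pt K (Fin b × Fin (N + 1))) : Pt K (Fin a × Fin (N + 1)) :=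
  fun p => PowerSeries.coeff (p.2 : ℕ) (aeval (arc z) (φ (X p.1)))

theorem isPF_Tm (φ : MvPolynomial (Fin a) K →ₐ[K] MvPolynomial (Fin b) K)
    (p : Fin a × Fin (N + 1)) : IsPF (fun z => Tm φ N z p) :=
  IsPA.aeval (fun i z => arc z i) (fun i => isPA_arc i) (φ (X p.1)) p.2

theorem aeval_cmp (φ : MvPolynomial (Fin a) K →ₐ[K] MvPolynomial (Fin b) K) {A : Type}
    [CommRing A] [Algebra K A] (γ : Fin b → A) (g : MvPolynomial (Fin a) K) :
    aeval (fun i => aeval γ (φ (X i))) g = aeval γ (φ g) := by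
  have h : (aeval (fun i => aeval γ (φ (X i))) : MvPolynomial (Fin a) K →ₐ[K] A) =
      (aeval γ).comp φ := by
    apply MvPolynomial.algHom_ext
    intro i
    rw [aeval_X]
    rfl
  rw [h]
  rfl

theorem coeff_Tm (φ : MvPolynomial (Fin a) K →ₐ[K] MvPolynomial (Fin b) K)
    (z : Pt K (Fin b × Fin (N + 1))) (g : MvPolynomial (Fin a) K) :
    ∀ k ≤ N, PowerSeries.coeff k (aeval (arc (Tm φ N z)) g) =
      PowerSeries.coeff k (aeval (arc z) (φ g)) := by
  intro k hk
  have h := coeff_aeval_congr g N (arc (Tm φ N z)) (fun i => aeval (arc z) (φ (X i)))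
    (fun i k hk => by
      rw [coeff_arc _ _ _ (by omega)]
      rfl) k hk
  rw [h, aeval_cmp]

theorem coeff_zero_aeval (z : Pt K (Fin b × Fin (N + 1))) (P : MvPolynomial (Fin b) K) :
    PowerSeries.coeff 0 (aeval (arc z) P) = aeval (fun i => z (i, 0)) P := by
  rw [PowerSeries.coeff_zero_eq_constantCoeff_apply]
  induction P using MvPolynomial.induction_on with
  | C c =>
    rw [MvPolynomial.algHom_C, MvPolynomial.algHom_C, PowerSeries.algebraMap_apply,
      PowerSeries.constantCoeff_C]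
  | add p q hp hq => rw [map_add, map_add, map_add, hp, hq]
  | mul_X p i hp =>
    rw [map_mul, map_mul, map_mul, hp, aeval_X, aeval_X,
      ← PowerSeries.coeff_zero_eq_constantCoeff_apply, coeff_arc _ _ _ (Nat.succ_pos N)]
    rfl

theorem constr_JetE (f : MvPolynomial (Fin a) K) {W : Set (Pt K (Fin a))} (hW : Constr W)
    {E : Set (AlgebraicClosure K)} (hE : CE E) (N : ℕ) : Constr (JetG f W E N) := by
  unfold JetG
  refine Constr.and (hW.preimage _ fun i => IsPF.coord _)
    (Constr.and (Constr.allLt _ fun j _ => ?_) (hE _ ?_))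
  · exact Constr.eqz (IsPA.aeval (fun i z => arc z i) (fun i => isPA_arc i) f j)
  · exact IsPA.aeval (fun i z => arc z i) (fun i => isPA_arc i) f N

theorem Tm_Tm (φ : MvPolynomial (Fin a) K →ₐ[K] MvPolynomial (Fin b) K)
    (φ' : MvPolynomial (Fin b) K →ₐ[K] MvPolynomial (Fin a) K)
    (h : ∀ g, φ (φ' g) = g) (z : Pt K (Fin b × Fin (N + 1))) : Tm φ' N (Tm φ N z) = z := by
  funext p
  obtain ⟨i, k⟩ := p
  change PowerSeries.coeff (k : ℕ) (aeval (arc (Tm φ N z)) (φ' (X i))) = z (i, k)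
  rw [coeff_Tm φ z _ _ (by omega), h, aeval_X, coeff_arc _ _ _ k.2]

theorem three : TaskTHREE := by
  intro K _ R _ M a b ψ f W E hW hE N
  have hW' : Constr {w : Pt K (Fin b) | (fun i => aeval w (ψ (X i))) ∈ W} :=
    hW.preimage _ fun i => IsPF.poly _
  have h1 : ∀ g, (ψ : MvPolynomial (Fin a) K →ₐ[K] MvPolynomial (Fin b) K)
      ((ψ.symm : MvPolynomial (Fin b) K →ₐ[K] MvPolynomial (Fin a) K) g) = g :=
    fun g => ψ.apply_symm_apply g
  have h2 : ∀ g, (ψ.symm : MvPolynomial (Fin b) K →ₐ[K] MvPolynomial (Fin a) K)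
      ((ψ : MvPolynomial (Fin a) K →ₐ[K] MvPolynomial (Fin b) K) g) = g :=
    fun g => ψ.symm_apply_apply g
  refine M.iso _ _ (constr_JetE _ hW' hE N) (constr_JetE f hW hE N)
    (Tm (ψ : MvPolynomial (Fin a) K →ₐ[K] MvPolynomial (Fin b) K) N)
    (Tm (ψ.symm : MvPolynomial (Fin b) K →ₐ[K] MvPolynomial (Fin a) K) N)
    (regularOn_poly (fun p => isPF_Tm _ p) _) (regularOn_poly (fun p => isPF_Tm _ p) _)
    ?_ ?_ (fun z _ => Tm_Tm _ _ h1 z) (fun z _ => Tm_Tm _ _ h2 z)
  · rintro z ⟨g1, g2, g3⟩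
    refine ⟨?_, fun j hj => ?_, ?_⟩
    · have e : (fun i => Tm (ψ : MvPolynomial (Fin a) K →ₐ[K] MvPolynomial (Fin b) K) N z (i, 0)) =
          fun i => aeval (fun i => z (i, 0)) (ψ (X i)) := by
        funext i
        exact coeff_zero_aeval z (ψ (X i))
      rw [e]
      exact g1
    · rw [coeff_Tm _ _ _ _ hj.le]
      exact g2 j hj
    · rw [coeff_Tm _ _ _ _ le_rfl]
      exact g3
  · rintro z ⟨g1, g2, g3⟩
    refine ⟨?_, fun j hj => ?_, ?_⟩
    · have e : (fun i => Tm (ψ.symm : MvPolynomial (Fin b) K →ₐ[K] MvPolynomial (Fin a) K) N z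
          (i, 0)) = fun i => aeval (fun i => z (i, 0))
            ((ψ.symm : MvPolynomial (Fin b) K →ₐ[K] MvPolynomial (Fin a) K) (X i)) := by
        funext i
        exact coeff_zero_aeval z (ψ.symm (X i))
      change (fun i => aeval (fun i => Tm (ψ.symm : MvPolynomial (Fin b) K →ₐ[K]
        MvPolynomial (Fin a) K) N z (i, 0)) (ψ (X i))) ∈ W
      rw [e]
      have e2 : (fun i => aeval (fun i => aeval (fun i => z (i, 0))
            ((ψ.symm : MvPolynomial (Fin b) K →ₐ[K] MvPolynomial (Fin a) K) (X i)))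
            (ψ (X i))) = fun i => z (i, 0) := by
        funext i
        rw [aeval_cmp]
        have e3 : (ψ.symm : MvPolynomial (Fin b) K →ₐ[K] MvPolynomial (Fin a) K) (ψ (X i)) =
            X i := ψ.symm_apply_apply (X i)
        rw [e3, aeval_X]
      rw [e2]
      exact g1
    · rw [coeff_Tm _ _ _ _ hj.le]
      have e3 : (ψ.symm : MvPolynomial (Fin b) K →ₐ[K] MvPolynomial (Fin a) K) (ψ f) = f :=
        ψ.symm_apply_apply f
      rw [e3]
      exact g2 j hj
    · rw [coeff_Tm _ _ _ _ le_rfl]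
      have e3 : (ψ.symm : MvPolynomial (Fin b) K →ₐ[K] MvPolynomial (Fin a) K) (ψ f) = f :=
        ψ.symm_apply_apply f
      rw [e3]
      exact g3

end Pool.Agent.Z864.MS
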